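import Mathlib
import Pool.Agent.Helper21.LQ.All

set_option autoImplicit false

namespace Pool.Agent.Results.MP_2f9829_co.Layered

open SimpleGraph Finset

/-- Let `G` be a finite graph on `n` vertices with maximum degree `Δ`. Suppose that every subgraph
`H` of `G` with `deg_H x + deg_H y ≥ Δ + 2` for all its edges `xy` has levels `lev` and an
`ε ∈ (0, 1]` such that
* `ε²⁵ Δ ≥ 2¹⁶⁰ log n`, unless all levels are `0`;
* `ε²⁵ (Δ - d_j(t)) ≥ 2¹⁶⁰ log n` for every edge `tr` of `H` with `lev t < j = lev r`, where `d_j(t)`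
  is the number of `H`-neighbours of `t` of level `< j`;
* for every `r` of level `j > 0`, the sum of `1 / (Δ - d_j(t))` over the `H`-neighbours `t` of `r` of
  level `< j`, plus the number of `H`-neighbours of `r` of level `j` divided by `Δ`, is `≤ 1 - ε`;
* the edges of `H` inside level `0` can be coloured from all lists of size `Δ`, or level `0` is
  bipartite, or level `0` is `d`-degenerate with `Δ ≥ 2 · 10²⁴ d` or `Δ ≥ 700 d log Δ`.

Then `G` satisfies the list edge-colouring conjecture, with chromatic index and list chromatic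
index `Δ`. -/
theorem result (V : Type) [Fintype V] [DecidableEq V] (G : SimpleGraph V) [DecidableRel G.Adj]
    (hG : ∀ (H : SimpleGraph V) [DecidableRel H.Adj], H ≤ G →
      (∀ x y, H.Adj x y → G.maxDegree + 2 ≤ H.degree x + H.degree y) →
      ∃ (ε : ℝ) (lev : V → ℕ), 0 < ε ∧ ε ≤ 1 ∧
        ((∃ r, lev r ≠ 0) →
          2 ^ 160 * Real.log (Fintype.card V) ≤ ε ^ 25 * G.maxDegree) ∧
        (∀ t r, H.Adj t r → lev t < lev r →
          2 ^ 160 * Real.log (Fintype.card V) ≤ ε ^ 25 * ((G.maxDegree : ℝ) -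
            ((H.neighborFinset t).filter (fun u => lev u < lev r)).card)) ∧
        (∀ r, 0 < lev r → ∑ t ∈ (H.neighborFinset r).filter (fun u => lev u < lev r),
            1 / ((G.maxDegree : ℝ) -
              ((H.neighborFinset t).filter (fun u => lev u < lev r)).card) +
          (((H.neighborFinset r).filter (fun u => lev u = lev r)).card : ℝ) / G.maxDegree ≤
            1 - ε) ∧
        ((∀ L : H.edgeSet → Finset ℕ,
            (∀ e : H.edgeSet, (∀ v ∈ (e : Sym2 V), lev v = 0) → G.maxDegree ≤ (L e).card) →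
            ∃ f : H.edgeSet → ℕ,
              (∀ e : H.edgeSet, (∀ v ∈ (e : Sym2 V), lev v = 0) → f e ∈ L e) ∧
              ∀ e e' : H.edgeSet, (∀ v ∈ (e : Sym2 V), lev v = 0) →
                (∀ v ∈ (e' : Sym2 V), lev v = 0) → H.lineGraph.Adj e e' → f e ≠ f e') ∨
          (∃ A : V → Bool, ∀ x y, H.Adj x y → lev x = 0 → lev y = 0 → A x ≠ A y) ∨
          (∃ d : ℕ, (2 * 10 ^ 24 * d ≤ G.maxDegree ∨
              700 * (d : ℝ) * Real.log G.maxDegree ≤ G.maxDegree) ∧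
            ∀ W : Finset V, W.Nonempty → (∀ v ∈ W, lev v = 0) →
              ∃ v ∈ W, (W.filter (H.Adj v)).card ≤ d))) (k : ℕ) :
    (G.lineGraph.Colorable k ↔
      ∀ L : G.edgeSet → Finset ℕ, (∀ e, k ≤ (L e).card) →
        ∃ f : G.edgeSet → ℕ, (∀ e, f e ∈ L e) ∧ ∀ e e', G.lineGraph.Adj e e' → f e ≠ f e') ∧
    (G.lineGraph.Colorable k ↔ G.maxDegree ≤ k) :=
  Pool.Agent.Helper21.LQ.layered Pool.Agent.Helper21.LQ.all_CHAIN Pool.Agent.Helper21.LQ.st_GAL
    Pool.Agent.Helper21.LQ.st_TOP V G hG k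

/-- Special case: `β ≥ 0`, `ε > 0`, `β + ε ≤ 1`, `ε²⁶ Δ ≥ 2¹⁶⁰ log n`, and every vertex of degree
`> (1 - β - ε) Δ` has at most `β Δ` neighbours of degree `> (1 - β - ε) Δ` (it is enough that the
subgraphs `H` with `deg_H x + deg_H y ≥ Δ + 2` for all their edges have this property). -/
theorem sparse_heavy (V : Type) [Fintype V] [DecidableEq V] (G : SimpleGraph V)
    [DecidableRel G.Adj] (ε β : ℝ) (h1 : 0 < ε) (h2 : 0 ≤ β) (h3 : β + ε ≤ 1)
    (h4 : 2 ^ 160 * Real.log (Fintype.card V) ≤ ε ^ 26 * G.maxDegree)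
    (h5 : ∀ (H : SimpleGraph V) [DecidableRel H.Adj], H ≤ G →
      (∀ x y, H.Adj x y → G.maxDegree + 2 ≤ H.degree x + H.degree y) →
      ∀ v, (1 - β - ε) * G.maxDegree < H.degree v →
        (((H.neighborFinset v).filter
          (fun u => (1 - β - ε) * G.maxDegree < (H.degree u : ℝ))).card : ℝ) ≤
          β * G.maxDegree) (k : ℕ) :
    (G.lineGraph.Colorable k ↔
      ∀ L : G.edgeSet → Finset ℕ, (∀ e, k ≤ (L e).card) →
        ∃ f : G.edgeSet → ℕ, (∀ e, f e ∈ L e) ∧ ∀ e e', G.lineGraph.Adj e e' → f e ≠ f e') ∧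
    (G.lineGraph.Colorable k ↔ G.maxDegree ≤ k) :=
  Pool.Agent.Helper21.LQ.sparse_heavy Pool.Agent.Helper21.LQ.all_CHAIN
    Pool.Agent.Helper21.LQ.st_GAL Pool.Agent.Helper21.LQ.st_TOP V G ε β h1 h2 h3 h4 h5 k

/-- The main step: extension of precolourings through levels. -/
theorem extension (V : Type) [Fintype V] [DecidableEq V] (G : SimpleGraph V)
    [DecidableRel G.Adj] (ε : ℝ) (lev : V → ℕ) (k : ℕ) (h1 : 0 < ε) (h2 : ε ≤ 1)
    (h3 : k ≤ Fintype.card V)
    (h4 : (∃ r, lev r ≠ 0) → 2 ^ 160 * Real.log (Fintype.card V) ≤ ε ^ 25 * k)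
    (h5 : ∀ t r, G.Adj t r → lev t < lev r → G.degree t ≤ k ∧
      2 ^ 160 * Real.log (Fintype.card V) ≤
        ε ^ 25 * ((k : ℝ) - ((G.neighborFinset t).filter (fun u => lev u < lev r)).card))
    (h6 : ∀ r, 0 < lev r → ∑ t ∈ (G.neighborFinset r).filter (fun u => lev u < lev r),
        1 / ((k : ℝ) - ((G.neighborFinset t).filter (fun u => lev u < lev r)).card) +
      (((G.neighborFinset r).filter (fun u => lev u = lev r)).card : ℝ) / k ≤ 1 - ε)
    (L : G.edgeSet → Finset ℕ) (c : G.edgeSet → ℕ)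
    (hL : ∀ e : G.edgeSet, (∃ v ∈ (e : Sym2 V), lev v ≠ 0) → k ≤ (L e).card)
    (hc : ∀ e e' : G.edgeSet, (∀ v ∈ (e : Sym2 V), lev v = 0) →
      (∀ v ∈ (e' : Sym2 V), lev v = 0) → G.lineGraph.Adj e e' → c e ≠ c e') :
    ∃ f : G.edgeSet → ℕ, (∀ e : G.edgeSet, (∀ v ∈ (e : Sym2 V), lev v = 0) → f e = c e) ∧
      (∀ e : G.edgeSet, (∃ v ∈ (e : Sym2 V), lev v ≠ 0) → f e ∈ L e) ∧
      ∀ e e' : G.edgeSet, G.lineGraph.Adj e e' → f e ≠ f e' :=
  Pool.Agent.Helper21.LQ.extension Pool.Agent.Helper21.LQ.all_CHAIN V G ε lev k h1 h2 h3 h4 h5 h6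
    L c hL hc

end Pool.Agent.Results.MP_2f9829_co.Layered
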