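import Mathlib
import Pool.Agent.Helper15.LR.A1
import Pool.Agent.Helper15.LR.A2
import Pool.Agent.Helper33.LR.A3
import Pool.Agent.Helper15.LR.A4
import Pool.Agent.Helper15.LR.B1a
import Pool.Agent.Helper15.LR.B1b
import Pool.Agent.Helper15.LR.B2
import Pool.Agent.Helper15.LR.B3
import Pool.Agent.Helper15.LR.B4
import Pool.Agent.Helper15.LR.C1
import Pool.Agent.Helper15.LR.D1a
import Pool.Agent.Helper15.LR.D1b
import Pool.Agent.Helper15.LR.D2a
import Pool.Agent.Helper15.LR.D2b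
import Pool.Agent.Helper15.LR.D3
import Pool.Agent.Helper15.LR.D4
import Pool.Agent.Helper15.LR.E
import Pool.Agent.Helper15.LR.E0
import Pool.Agent.Helper15.LR.E1
import Pool.Agent.Helper25.LR.F
import Pool.Agent.Helper15.LR.G0
import Pool.Agent.Helper15.LR.G1
import Pool.Agent.Helper15.LR.G2
import Pool.Agent.Helper15.LR.G4
import Pool.Agent.Helper67.LR.G5
import Pool.Agent.Helper15.LR.H

set_option autoImplicit false

namespace Pool.Agent.Results.MP_2f9829_co.AlmostAll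

open Filter Topology

/-- The list edge-colouring conjecture holds for almost all graphs: the proportion of graphs on the
vertex set `{0, ..., n-1}` whose list chromatic index equals their chromatic index tends to `1`. -/
theorem result :
    Tendsto (fun n : ℕ => (Nat.card {G : SimpleGraph (Fin n) // ∀ k : ℕ,
      (G.lineGraph.Colorable k ↔ ∀ L : G.edgeSet → Finset ℕ, (∀ e, k ≤ (L e).card) →
        ∃ f : G.edgeSet → ℕ, (∀ e, f e ∈ L e) ∧
          ∀ e e', G.lineGraph.Adj e e' → f e ≠ f e')} : ℝ) / 2 ^ (n.choose 2)) atTop (𝓝 1) := by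
  have hA3 := Pool.Agent.Helper33.LR.blockGalvin Pool.Agent.Helper15.LR.A1 Pool.Agent.Helper15.LR.A2
  have hA4 := Pool.Agent.Helper15.LR.A4_Level hA3
  have hAv := Pool.Agent.Helper15.LR.B1a_Avoid
  have hMa := Pool.Agent.Helper15.LR.B1a_Markov
  have hCh := Pool.Agent.Helper15.LR.B1b_Chernoff
  have hHo := Pool.Agent.Helper15.LR.B1b_Hoeffding
  have hB2 := Pool.Agent.Helper15.LR.B2 hAv hCh hMa
  have hB3 := Pool.Agent.Helper15.LR.B3 hAv hHo
  have hB4 := Pool.Agent.Helper15.LR.B4_Sampling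
  have hC1 := Pool.Agent.Helper15.LR.C1 hA3 hAv hCh
  have hD := Pool.Agent.Helper15.LR.D4
    (fun V Λ _ _ _ F A τ ω h1 h2 h3 => Pool.Agent.Helper15.LR.D1a_main V Λ F A τ ω h1 h2 h3)
    Pool.Agent.Helper15.LR.D1b Pool.Agent.Helper15.LR.D2a Pool.Agent.Helper15.LR.D2b
    Pool.Agent.Helper15.LR.D3
  have hE := Pool.Agent.Helper15.LR.E hD hB2 hB3 hB4 hC1 hA4 Pool.Agent.Helper15.LR.E0
    Pool.Agent.Helper15.LR.E1
  have hF := Pool.Agent.Helper25.LR.F hA3 hE
  have h0 := Pool.Agent.Helper15.LR.G0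
  exact Pool.Agent.Helper15.LR.H h0 hF (Pool.Agent.Helper15.LR.G1_Deg h0 hHo)
    (Pool.Agent.Helper15.LR.G2 h0 Pool.Agent.Helper67.LR.G5 hHo)
    (Pool.Agent.Helper15.LR.G1_Few h0 hMa hHo) (Pool.Agent.Helper15.LR.G4 h0 hHo)

end Pool.Agent.Results.MP_2f9829_co.AlmostAll
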