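import Mathlib
import Pool.Agent.Helper15.LP.Main

set_option autoImplicit false

namespace Pool.Agent.Results.MP_2f9829_co.PolylogBound

/-- The list chromatic index of every graph `G` on `n ≥ 2` vertices is at most
`Δ(G) + C (log n)^5`, with an absolute constant `C`. -/
theorem result :
    ∃ C : ℝ, ∀ (V : Type) [Fintype V] [DecidableEq V] (G : SimpleGraph V) [DecidableRel G.Adj],
      2 ≤ Fintype.card V →
      ∀ L : G.edgeSet → Finset ℕ,
        (∀ e, (G.maxDegree : ℝ) + C * Real.log (Fintype.card V) ^ 5 ≤ ((L e).card : ℝ)) →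
        ∃ f : G.edgeSet → ℕ, (∀ e, f e ∈ L e) ∧ ∀ e e', G.lineGraph.Adj e e' → f e ≠ f e' :=
  Pool.Agent.Helper15.LP.lp_BoundP

end Pool.Agent.Results.MP_2f9829_co.PolylogBound
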