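import Mathlib
import Pool.Agent.Helper15.LP.Main

set_option autoImplicit false

namespace Pool.Agent.Results.MP_2f9829_co.PolylogGap

/-- The list edge-colouring conjecture holds, with value `Δ(G)`, for every graph `G` on `n ≥ 2`
vertices such that every vertex has at most `h` neighbours of degree greater than
`Δ(G) - 2h - C (log n)^5`, for some `h` with `2h ≤ Δ(G)`. -/
theorem result :
    ∃ C : ℝ, ∀ (V : Type) [Fintype V] [DecidableEq V] (G : SimpleGraph V) [DecidableRel G.Adj]
      (h : ℕ), 2 ≤ Fintype.card V → 2 * h ≤ G.maxDegree →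
      (∀ v, ((G.neighborFinset v).filter (fun u => (G.maxDegree : ℝ) - 2 * h -
        C * Real.log (Fintype.card V) ^ 5 < (G.degree u : ℝ))).card ≤ h) →
      ∀ k : ℕ, (G.lineGraph.Colorable k ↔ ∀ L : G.edgeSet → Finset ℕ, (∀ e, k ≤ (L e).card) →
          ∃ f : G.edgeSet → ℕ, (∀ e, f e ∈ L e) ∧
            ∀ e e', G.lineGraph.Adj e e' → f e ≠ f e') ∧
        (G.lineGraph.Colorable k ↔ G.maxDegree ≤ k) :=
  Pool.Agent.Helper15.LP.lp_GapP

end Pool.Agent.Results.MP_2f9829_co.PolylogGap
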