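import Mathlib
import Pool.Agent.Helper81.Box5

set_option autoImplicit false

namespace Pool.Agent.Helper15.Parked.TwicePrime

open SimpleGraph

/-- Let `G` be a graph on at most `2p` vertices, `p` prime, let every `H i` be a finite forest or an
even cycle, and suppose `Δ(G) + ∑ Δ(H i) ≥ 2p - 1`.  Then the Cartesian product `P` of `G` and all the
`H i` satisfies the list edge-colouring conjecture, with chromatic index `Δ(G) + ∑ Δ(H i)`. (For `s = 0`
the product is a copy of `G`; in particular `G` may be the complete graph on `2p` vertices.) -/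
theorem result (V : Type) [Fintype V] [Nonempty V] (G : SimpleGraph V) [DecidableRel G.Adj]
    (s : ℕ) (W : Fin s → Type) [∀ i, Fintype (W i)] [∀ i, Nonempty (W i)]
    (H : ∀ i, SimpleGraph (W i)) [∀ i, DecidableRel (H i).Adj]
    (hH : ∀ i, (H i).IsAcyclic ∨ ∃ n, 2 ≤ n ∧ Nonempty (H i ≃g cycleGraph (2 * n)))
    (p : ℕ) (hp : p.Prime) (h1 : Fintype.card V ≤ 2 * p)
    (h2 : 2 * p ≤ G.maxDegree + ∑ i, (H i).maxDegree + 1)
    (P : SimpleGraph (V × (∀ i, W i)))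
    (hP : ∀ x y, P.Adj x y ↔ (G.Adj x.1 y.1 ∧ x.2 = y.2) ∨
      (x.1 = y.1 ∧ ∃ i, (H i).Adj (x.2 i) (y.2 i) ∧ ∀ j, j ≠ i → x.2 j = y.2 j)) (k : ℕ) :
    (P.lineGraph.Colorable k ↔
      ∀ L : P.edgeSet → Finset ℕ, (∀ e, k ≤ (L e).card) →
        ∃ f : P.edgeSet → ℕ, (∀ e, f e ∈ L e) ∧ ∀ e e', P.lineGraph.Adj e e' → f e ≠ f e') ∧
    (P.lineGraph.Colorable k ↔ G.maxDegree + ∑ i, (H i).maxDegree ≤ k) :=
  Pool.Agent.Helper81.Box.final_box' G W H hH (Pool.Agent.Helper81.Box.GG_twoPrime hp h1 h2) P hP k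

end Pool.Agent.Helper15.Parked.TwicePrime
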